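import Pool.Agent.Helper1.SQ.Defs
import Pool.Agent.Helper44.BrunHooley

/-!
Project SQ (MP_36c81c_nt), module SQ-BH: the Brun-Hooley sieve with sharp error terms.
-/

set_option autoImplicit false
open Finset

namespace Pool.Agent.Helper1.SQ

open Pool.Agent.Helper44 (tr es ind prod_ind prod_one_sub_ind ind_mem prod_le_tr_even tr_even_le
  es_le_pow_div_factorial es_nonneg card_powerset_filter_le tr_eq_sum_filter es_eq_sum_filter)

/-! ### signed divisor lists -/

private noncomputable def vl (D : List (ℝ × ℕ)) (n : ℕ) : ℝ :=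
  (D.map (fun x => if x.2 ∣ n then x.1 else 0)).sum

private noncomputable def gl (D : List (ℝ × ℕ)) : ℝ := (D.map (fun x => x.1 / (x.2 : ℝ))).sum

private noncomputable def mulL (D U : List (ℝ × ℕ)) : List (ℝ × ℕ) :=
  D.flatMap (fun x => U.map (fun y => (x.1 * y.1, x.2 * y.2)))

private def Good (Q : Finset ℕ) (D : List (ℝ × ℕ)) : Prop :=
  ∀ x ∈ D, |x.1| ≤ 1 ∧ 0 < x.2 ∧ ∀ q : ℕ, q.Prime → q ∣ x.2 → q ∈ Q

private theorem vl_nil (n : ℕ) : vl [] n = 0 := rfl

private theorem vl_cons (x : ℝ × ℕ) (D : List (ℝ × ℕ)) (n : ℕ) :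
    vl (x :: D) n = (if x.2 ∣ n then x.1 else 0) + vl D n := by
  unfold vl; rw [List.map_cons, List.sum_cons]

private theorem vl_append (D D' : List (ℝ × ℕ)) (n : ℕ) : vl (D ++ D') n = vl D n + vl D' n := by
  unfold vl; rw [List.map_append, List.sum_append]

private theorem gl_nil : gl [] = 0 := rfl

private theorem gl_cons (x : ℝ × ℕ) (D : List (ℝ × ℕ)) : gl (x :: D) = x.1 / (x.2 : ℝ) + gl D := by
  unfold gl; rw [List.map_cons, List.sum_cons]

private theorem gl_append (D D' : List (ℝ × ℕ)) : gl (D ++ D') = gl D + gl D' := by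
  unfold gl; rw [List.map_append, List.sum_append]

private theorem mulL_cons (x : ℝ × ℕ) (D U : List (ℝ × ℕ)) :
    mulL (x :: D) U = U.map (fun y => (x.1 * y.1, x.2 * y.2)) ++ mulL D U := by
  unfold mulL; rw [List.flatMap_cons]

private theorem vl_scale (x : ℝ × ℕ) (U : List (ℝ × ℕ)) (n : ℕ)
    (h : ∀ y ∈ U, Nat.Coprime x.2 y.2) :
    vl (U.map (fun y => (x.1 * y.1, x.2 * y.2))) n = (if x.2 ∣ n then x.1 else 0) * vl U n := by
  induction U with
  | nil => simp [vl]
  | cons y U ih =>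
    rw [List.map_cons, vl_cons, vl_cons, ih (fun z hz => h z (List.mem_cons_of_mem _ hz))]
    have hc := h y List.mem_cons_self
    have h1 : (x.2 * y.2 ∣ n) ↔ (x.2 ∣ n ∧ y.2 ∣ n) :=
      ⟨fun hd => ⟨(Dvd.intro _ rfl).trans hd, (Dvd.intro_left _ rfl).trans hd⟩,
        fun hd => hc.mul_dvd_of_dvd_of_dvd hd.1 hd.2⟩
    by_cases hx : x.2 ∣ n
    · by_cases hy : y.2 ∣ n
      · simp only [h1, hx, hy, and_self, if_true]; ring
      · simp only [h1, hx, hy, and_false, if_true, if_false]; ring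
    · simp only [h1, hx, false_and, if_false]; ring

private theorem vl_mulL (D U : List (ℝ × ℕ)) (n : ℕ)
    (h : ∀ x ∈ D, ∀ y ∈ U, Nat.Coprime x.2 y.2) : vl (mulL D U) n = vl D n * vl U n := by
  induction D with
  | nil => simp [mulL, vl]
  | cons x D ih =>
    rw [mulL_cons, vl_append, vl_cons, vl_scale x U n (h x List.mem_cons_self),
      ih (fun z hz => h z (List.mem_cons_of_mem _ hz))]
    ring

private theorem gl_scale (x : ℝ × ℕ) (U : List (ℝ × ℕ)) :
    gl (U.map (fun y => (x.1 * y.1, x.2 * y.2))) = x.1 / (x.2 : ℝ) * gl U := by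
  induction U with
  | nil => simp [gl]
  | cons y U ih =>
    rw [List.map_cons, gl_cons, gl_cons, ih]
    push_cast
    rw [mul_add, div_mul_div_comm]

private theorem gl_mulL (D U : List (ℝ × ℕ)) : gl (mulL D U) = gl D * gl U := by
  induction D with
  | nil => simp [mulL, gl]
  | cons x D ih =>
    rw [mulL_cons, gl_append, gl_cons, gl_scale x U, ih]
    ring

private theorem length_mulL (D U : List (ℝ × ℕ)) : (mulL D U).length = D.length * U.length := by
  induction D with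
  | nil => simp [mulL]
  | cons x D ih =>
    rw [mulL_cons, List.length_append, List.length_map, ih, List.length_cons]
    ring

private theorem Good.mulL {Q Q' : Finset ℕ} {D U : List (ℝ × ℕ)} (hD : Good Q D) (hU : Good Q' U) :
    Good (Q ∪ Q') (mulL D U) := by
  intro z hz
  unfold SQ.mulL at hz
  rw [List.mem_flatMap] at hz
  obtain ⟨x, hx, hz⟩ := hz
  rw [List.mem_map] at hz
  obtain ⟨y, hy, rfl⟩ := hz
  obtain ⟨h1, h2, h3⟩ := hD x hx
  obtain ⟨h4, h5, h6⟩ := hU y hy
  refine ⟨?_, Nat.mul_pos h2 h5, ?_⟩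
  · simp only [abs_mul]
    exact mul_le_one₀ h1 (abs_nonneg _) h4
  · intro q hq hqd
    rw [Finset.mem_union]
    rcases (Nat.Prime.dvd_mul hq).mp hqd with h | h
    · exact Or.inl (h3 q hq h)
    · exact Or.inr (h6 q hq h)

private theorem Good.append {Q : Finset ℕ} {D U : List (ℝ × ℕ)} (hD : Good Q D) (hU : Good Q U) :
    Good Q (D ++ U) := by
  intro z hz
  rcases List.mem_append.mp hz with h | h
  · exact hD z h
  · exact hU z h

private noncomputable def negL (D : List (ℝ × ℕ)) : List (ℝ × ℕ) := D.map (fun x => (-x.1, x.2))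

private theorem vl_negL (D : List (ℝ × ℕ)) (n : ℕ) : vl (negL D) n = -vl D n := by
  unfold negL
  induction D with
  | nil => simp [vl]
  | cons x D ih =>
    rw [List.map_cons, vl_cons, vl_cons, ih]
    split_ifs <;> ring

private theorem gl_negL (D : List (ℝ × ℕ)) : gl (negL D) = -gl D := by
  unfold negL
  induction D with
  | nil => simp [gl]
  | cons x D ih =>
    rw [List.map_cons, gl_cons, gl_cons, ih]
    ring

private theorem Good.negL {Q : Finset ℕ} {D : List (ℝ × ℕ)} (hD : Good Q D) : Good Q (negL D) := by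
  intro z hz
  unfold SQ.negL at hz
  rw [List.mem_map] at hz
  obtain ⟨x, hx, rfl⟩ := hz
  obtain ⟨h1, h2, h3⟩ := hD x hx
  exact ⟨by simpa using h1, h2, h3⟩

private theorem coprime_of_good {Q Q' : Finset ℕ} (hQ : Disjoint Q Q') {D U : List (ℝ × ℕ)}
    (hD : Good Q D) (hU : Good Q' U) : ∀ x ∈ D, ∀ y ∈ U, Nat.Coprime x.2 y.2 := by
  intro x hx y hy
  apply Nat.coprime_of_dvd
  intro q hq h1 h2
  exact Finset.disjoint_left.mp hQ ((hD x hx).2.2 q hq h1) ((hU y hy).2.2 q hq h2)

/-! ### blocks -/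

private noncomputable def blk (c : Finset ℕ → ℝ) (S : Finset (Finset ℕ)) : List (ℝ × ℕ) :=
  S.toList.map (fun I => (c I, ∏ q ∈ I, q))

open Classical in
private theorem prod_ind' {B I : Finset ℕ} (hB : ∀ q ∈ B, q.Prime) (hI : I ⊆ B) (n : ℕ) :
    ∏ i ∈ I, ind (fun q n : ℕ => q ∣ n) n i = if (∏ q ∈ I, q) ∣ n then 1 else 0 := by
  rw [prod_ind]
  have h : (∀ i ∈ I, i ∣ n) ↔ (∏ q ∈ I, q) ∣ n := by
    constructor
    · intro h
      exact Finset.prod_primes_dvd n (fun q hq => (hB q (hI hq)).prime) h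
    · intro h i hi
      exact (Finset.dvd_prod_of_mem _ hi).trans h
  simp only [h]

private theorem vl_blk (c : Finset ℕ → ℝ) {B : Finset ℕ} (hB : ∀ q ∈ B, q.Prime)
    {S : Finset (Finset ℕ)} (hS : ∀ I ∈ S, I ⊆ B) (n : ℕ) :
    vl (blk c S) n = ∑ I ∈ S, c I * ∏ i ∈ I, ind (fun q n : ℕ => q ∣ n) n i := by
  classical
  unfold vl blk
  rw [List.map_map, ← Finset.sum_map_toList]
  congr 1
  apply List.map_congr_left
  intro I hI
  rw [Finset.mem_toList] at hI
  rw [prod_ind' hB (hS I hI)]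
  simp only [Function.comp]
  split_ifs <;> ring

private theorem gl_blk (c : Finset ℕ → ℝ) (S : Finset (Finset ℕ)) :
    gl (blk c S) = ∑ I ∈ S, c I * ∏ i ∈ I, (1 : ℝ) / i := by
  unfold gl blk
  rw [List.map_map, ← Finset.sum_map_toList]
  congr 1
  apply List.map_congr_left
  intro I _
  simp only [Function.comp]
  push_cast
  rw [Finset.prod_div_distrib, Finset.prod_const_one]
  ring

private theorem good_blk {c : Finset ℕ → ℝ} (hc : ∀ I, |c I| ≤ 1) {B : Finset ℕ}
    (hB : ∀ q ∈ B, q.Prime) {S : Finset (Finset ℕ)} (hS : ∀ I ∈ S, I ⊆ B) : Good B (blk c S) := by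
  intro x hx
  unfold blk at hx
  rw [List.mem_map] at hx
  obtain ⟨I, hI, rfl⟩ := hx
  rw [Finset.mem_toList] at hI
  refine ⟨hc I, Finset.prod_pos fun q hq => (hB q (hS I hI hq)).pos, ?_⟩
  intro q hq hqd
  obtain ⟨r, hr, hqr⟩ := (Prime.dvd_finsetProd_iff hq.prime (fun q : ℕ => q)).mp hqd
  rw [(Nat.prime_dvd_prime_iff_eq hq (hB r (hS I hI hr))).mp hqr]
  exact hS I hI hr

/-! ### the interval -/

private theorem PB_prime {i j q : ℕ} (h : q ∈ PB i j) : q.Prime := (Finset.mem_filter.mp h).2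

private theorem PB_union {b a : ℕ} (h4 : 4 ≤ b) (hba : b ≤ a) : PB 4 b ∪ PB b a = PB 4 a := by
  ext q
  unfold PB
  simp only [Finset.mem_union, Finset.mem_filter, Finset.mem_Ioc]
  have h1 : (2 : ℕ) ^ 4 ≤ 2 ^ b := Nat.pow_le_pow_right (by norm_num) h4
  have h2 : (2 : ℕ) ^ b ≤ 2 ^ a := Nat.pow_le_pow_right (by norm_num) hba
  constructor
  · rintro (⟨⟨h3, h5⟩, h6⟩ | ⟨⟨h3, h5⟩, h6⟩)
    · exact ⟨⟨h3, by omega⟩, h6⟩
    · exact ⟨⟨by omega, h5⟩, h6⟩
  · rintro ⟨⟨h3, h5⟩, h6⟩
    rcases le_or_gt q (2 ^ b) with h7 | h7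
    · exact Or.inl ⟨⟨h3, h7⟩, h6⟩
    · exact Or.inr ⟨⟨h7, h5⟩, h6⟩

private theorem PB_disjoint (b a : ℕ) : Disjoint (PB 4 b) (PB b a) := by
  rw [Finset.disjoint_left]
  intro q h1 h2
  unfold PB at h1 h2
  simp only [Finset.mem_filter, Finset.mem_Ioc] at h1 h2
  omega

private theorem vp_mul {b a : ℕ} (h4 : 4 ≤ b) (hba : b ≤ a) : vp 4 a = vp 4 b * vp b a := by
  unfold vp
  rw [← PB_union h4 hba, Finset.prod_union (PB_disjoint b a)]

private theorem PB_coprime {a q : ℕ} (h : q ∈ PB 4 a) : Nat.Coprime q 30030 := by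
  have hp := PB_prime h
  rw [Nat.Prime.coprime_iff_not_dvd hp]
  unfold PB at h
  simp only [Finset.mem_filter, Finset.mem_Ioc] at h
  have h16 : 16 < q := by
    have := h.1.1
    norm_num at this
    exact this
  intro hd
  have e : (30030 : ℕ) = 2 * 3 * 5 * 7 * 11 * 13 := by norm_num
  rw [e] at hd
  simp only [Nat.Prime.dvd_mul hp] at hd
  have hle : ∀ c : ℕ, 0 < c → q ∣ c → q ≤ c := fun c hc hd => Nat.le_of_dvd hc hd
  rcases hd with ((((h1 | h1) | h1) | h1) | h1) | h1
  · have := hle 2 (by norm_num) h1; omega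
  · have := hle 3 (by norm_num) h1; omega
  · have := hle 5 (by norm_num) h1; omega
  · have := hle 7 (by norm_num) h1; omega
  · have := hle 11 (by norm_num) h1; omega
  · have := hle 13 (by norm_num) h1; omega

/-- the unsieved set -/
private def SS (N H p : ℕ) : Finset ℕ :=
  (Ioc N (N + H)).filter (fun m => p ∣ m ∧ Nat.Coprime m 30030)

private theorem count_one (hD : Disc) {a N H p : ℕ} (hp : 0 < p) (hpc : Nat.Coprime p 30030)
    (hpa : ∀ q ∈ PB 4 a, ¬ q ∣ p) {x : ℝ × ℕ}
    (hx : |x.1| ≤ 1 ∧ 0 < x.2 ∧ ∀ q : ℕ, q.Prime → q ∣ x.2 → q ∈ PB 4 a) :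
    |∑ m ∈ SS N H p, (if x.2 ∣ m then x.1 else 0) - 192 / 1001 * ((H : ℝ) / p) * (x.1 / (x.2 : ℝ))|
      ≤ 8 := by
  obtain ⟨h1, h2, h3⟩ := hx
  have hcp : Nat.Coprime p x.2 := by
    apply Nat.coprime_of_dvd
    intro q hq h4 h5
    exact hpa q (h3 q hq h5) h4
  have hc : Nat.Coprime (p * x.2) 30030 := by
    apply Nat.Coprime.mul_left hpc
    apply Nat.coprime_of_dvd
    intro q hq h4 h5
    have h6 := PB_coprime (h3 q hq h4)
    rw [Nat.Prime.coprime_iff_not_dvd hq] at h6
    exact h6 h5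
  have h4 := hD N H (p * x.2) (Nat.mul_pos hp h2) hc
  have h5 : (Ioc N (N + H)).filter (fun m => p * x.2 ∣ m ∧ Nat.Coprime m 30030) =
      (SS N H p).filter (fun m => x.2 ∣ m) := by
    ext m
    unfold SS
    simp only [Finset.mem_filter]
    constructor
    · rintro ⟨h6, h7, h8⟩
      exact ⟨⟨h6, (Dvd.intro _ rfl).trans h7, h8⟩, (Dvd.intro_left _ rfl).trans h7⟩
    · rintro ⟨⟨h6, h7, h8⟩, h9⟩
      exact ⟨h6, hcp.mul_dvd_of_dvd_of_dvd h7 h9, h8⟩
  rw [h5] at h4
  have h6 : ∑ m ∈ SS N H p, (if x.2 ∣ m then x.1 else 0) =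
      x.1 * (((SS N H p).filter (fun m => x.2 ∣ m)).card : ℝ) := by
    rw [← Finset.sum_filter, Finset.sum_const, nsmul_eq_mul]
    ring
  have hp' : (0 : ℝ) < p := by exact_mod_cast hp
  have hx' : (0 : ℝ) < (x.2 : ℝ) := by exact_mod_cast h2
  have h7 : 192 / 1001 * ((H : ℝ) / p) * (x.1 / (x.2 : ℝ)) =
      x.1 * (192 / 1001 * ((H : ℝ) / ((p * x.2 : ℕ) : ℝ))) := by
    push_cast
    field_simp
  rw [h6, h7, ← mul_sub, abs_mul]
  calc _ ≤ 1 * 8 := mul_le_mul h1 h4 (abs_nonneg _) (by norm_num)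
    _ = 8 := by norm_num

private theorem count_all (hD : Disc) {a N H p : ℕ} (hp : 0 < p) (hpc : Nat.Coprime p 30030)
    (hpa : ∀ q ∈ PB 4 a, ¬ q ∣ p) (D : List (ℝ × ℕ)) (hG : Good (PB 4 a) D) :
    |∑ m ∈ SS N H p, vl D m - 192 / 1001 * ((H : ℝ) / p) * gl D| ≤ 8 * (D.length : ℝ) := by
  induction D with
  | nil => simp [vl, gl]
  | cons x D ih =>
    have h1 := ih (fun z hz => hG z (List.mem_cons_of_mem _ hz))
    have h2 := count_one hD (N := N) (H := H) hp hpc hpa (hG x List.mem_cons_self)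
    simp_rw [vl_cons]
    rw [Finset.sum_add_distrib, gl_cons, mul_add, List.length_cons]
    push_cast
    rw [abs_le] at *
    constructor <;> linarith [h1.1, h1.2, h2.1, h2.2]

/-! ### the induction along chains -/

open Classical in
private noncomputable def one (Q : Finset ℕ) (n : ℕ) : ℝ := if (∀ q ∈ Q, ¬ q ∣ n) then 1 else 0

private theorem one_nonneg (Q : Finset ℕ) (n : ℕ) : 0 ≤ one Q n := by
  unfold one; split_ifs <;> norm_num

private theorem one_eq (Q : Finset ℕ) (n : ℕ) :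
    one Q n = ∏ i ∈ Q, (1 - ind (fun q n : ℕ => q ∣ n) n i) := by
  classical
  rw [prod_one_sub_ind]
  unfold one
  congr

private theorem one_union {Q Q' : Finset ℕ} (h : Disjoint Q Q') (n : ℕ) :
    one (Q ∪ Q') n = one Q n * one Q' n := by
  rw [one_eq, one_eq, one_eq, Finset.prod_union h]

private theorem vp_pos {i j : ℕ} : 0 < vp i j := by
  unfold vp
  apply Finset.prod_pos
  intro q hq
  have h1 : (2 : ℝ) ≤ q := by exact_mod_cast (PB_prime hq).two_le
  have h2 : (1 : ℝ) / q ≤ 1 / 2 := one_div_le_one_div_of_le (by norm_num) h1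
  linarith

private theorem sm_nonneg {i j : ℕ} : 0 ≤ sm i j := by
  unfold sm
  apply Finset.sum_nonneg
  intro q _
  positivity

private theorem rr_nonneg {i j m : ℕ} : 0 ≤ rr i j m := by
  unfold rr
  exact div_nonneg (pow_nonneg sm_nonneg _) (mul_nonneg (by positivity) vp_pos.le)

private theorem chain {a : ℕ} {P R E M : ℝ} (h : Ch a P R E M) :
    4 ≤ a ∧ 0 ≤ P ∧ 0 ≤ E ∧ 0 ≤ R ∧ ∃ Dp Dm : List (ℝ × ℕ), Good (PB 4 a) Dp ∧ Good (PB 4 a) Dm ∧
      (Dp.length : ℝ) ≤ E ∧ (Dm.length : ℝ) ≤ E * M ∧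
      (∀ n, vl Dm n ≤ one (PB 4 a) n ∧ one (PB 4 a) n ≤ vl Dp n) ∧
      vp 4 a ≤ gl Dp ∧ gl Dp ≤ vp 4 a * P ∧ gl Dp * (1 - R) ≤ gl Dm := by
  induction h with
  | base =>
    refine ⟨le_rfl, by norm_num, by norm_num, le_rfl, [(1, 1)], [(1, 1)], ?_⟩
    have hE : PB 4 4 = ∅ := by
      unfold PB; simp
    have hG : Good (PB 4 4) [(1, 1)] := by
      intro x hx
      rw [List.mem_singleton] at hx
      subst hx
      refine ⟨by norm_num, by norm_num, ?_⟩
      intro q hq hqd
      exact absurd (Nat.dvd_one.mp hqd) hq.ne_one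
    have hv : ∀ n, vl [((1 : ℝ), 1)] n = 1 := by
      intro n; simp [vl]
    have ho : ∀ n, one (PB 4 4) n = 1 := by
      intro n; unfold one; rw [hE]; simp
    have hgl : gl [((1 : ℝ), 1)] = 1 := by simp [gl]
    have hvp : vp 4 4 = 1 := by unfold vp; rw [hE]; simp
    refine ⟨hG, hG, by simp, by simp, ?_, ?_, ?_, ?_⟩
    · intro n
      rw [hv, ho]
      exact ⟨le_rfl, le_rfl⟩
    · rw [hvp, hgl]
    · rw [hvp, hgl]; norm_num
    · rw [hgl]; norm_num
  | @step b P R E M a m _ hba hm ih =>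
    obtain ⟨h4, hP, hE, hR, Dp, Dm, hGp, hGm, hLp, hLm, hval, hg1, hg2, hg3⟩ := ih
    set B := PB b a with hB
    have hBp : ∀ q ∈ B, q.Prime := fun q hq => PB_prime hq
    set c : ℝ := (B.card : ℝ) with hc
    have hc0 : 0 ≤ c := by rw [hc]; positivity
    -- the truncated sums
    set S := B.powerset.filter (fun I => I.card ≤ m) with hS
    set S' := B.powerset.filter (fun I => I.card = m + 1) with hS'
    have hSs : ∀ I ∈ S, I ⊆ B := fun I hI => Finset.mem_powerset.mp (Finset.mem_filter.mp hI).1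
    have hSs' : ∀ I ∈ S', I ⊆ B := fun I hI => Finset.mem_powerset.mp (Finset.mem_filter.mp hI).1
    set U := blk (fun I => (-1 : ℝ) ^ I.card) S with hU
    set W := blk (fun _ => (1 : ℝ)) S' with hW
    have hGU : Good B U := good_blk (fun I => by rw [abs_pow]; simp) hBp hSs
    have hGW : Good B W := good_blk (fun I => by simp) hBp hSs'
    have hvU : ∀ n, vl U n = tr B m (ind (fun q n : ℕ => q ∣ n) n) := by
      intro n; rw [hU, vl_blk _ hBp hSs, tr_eq_sum_filter]
    have hvW : ∀ n, vl W n = es B (m + 1) (ind (fun q n : ℕ => q ∣ n) n) := by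
      intro n; rw [hW, vl_blk _ hBp hSs', es_eq_sum_filter]
    have hgU : gl U = tr B m (fun i => (1 : ℝ) / i) := by
      rw [hU, gl_blk, tr_eq_sum_filter]
    have hgW : gl W = es B (m + 1) (fun i => (1 : ℝ) / i) := by
      rw [hW, gl_blk, es_eq_sum_filter]
    have hlU : (U.length : ℝ) ≤ (c + 1) ^ m := by
      rw [hU]; unfold blk
      rw [List.length_map, Finset.length_toList]
      exact card_powerset_filter_le B m
    have hlW : (W.length : ℝ) ≤ (c + 1) ^ (m + 1) := by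
      rw [hW]; unfold blk
      rw [List.length_map, Finset.length_toList]
      refine le_trans ?_ (card_powerset_filter_le B (m + 1))
      have : S' ⊆ B.powerset.filter (fun I => I.card ≤ m + 1) := by
        intro I hI
        rw [hS', Finset.mem_filter] at hI
        rw [Finset.mem_filter]
        exact ⟨hI.1, hI.2.le⟩
      exact_mod_cast Finset.card_le_card this
    -- pointwise facts
    have hU1 : ∀ n, one B n ≤ vl U n := by
      intro n
      rw [hvU, one_eq]
      exact prod_le_tr_even B _ (fun i _ => ind_mem _ n i) m hm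
    have hU2 : ∀ n, vl U n ≤ one B n + vl W n := by
      intro n
      rw [hvU, hvW, one_eq]
      exact tr_even_le B _ (fun i _ => ind_mem _ n i) m hm
    have hW0 : ∀ n, 0 ≤ vl W n := by
      intro n
      rw [hvW]
      exact es_nonneg B (m + 1) _ fun i _ => (ind_mem _ n i).1
    -- main terms
    have hx : ∀ i ∈ B, (0 : ℝ) ≤ (fun i : ℕ => (1 : ℝ) / i) i ∧ (fun i : ℕ => (1 : ℝ) / i) i ≤ 1 := by
      intro i hi
      have h1 : (1 : ℝ) ≤ i := by exact_mod_cast (hBp i hi).one_le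
      exact ⟨by positivity, by
        simp only
        rw [div_le_one (by linarith)]
        exact h1⟩
    have hT1 : vp b a ≤ gl U := by
      rw [hgU]
      exact prod_le_tr_even B _ hx m hm
    have hT2 : gl U ≤ vp b a + gl W := by
      rw [hgU, hgW]
      exact tr_even_le B _ hx m hm
    have hW1 : gl W ≤ vp b a * rr b a m := by
      rw [hgW]
      have h1 := es_le_pow_div_factorial B (fun i : ℕ => (1 : ℝ) / i) (fun i hi => (hx i hi).1) (m + 1)
      have h2 : vp b a * rr b a m = sm b a ^ (m + 1) / (m + 1).factorial := by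
        unfold rr
        have := (vp_pos (i := b) (j := a)).ne'
        field_simp
      rw [h2]
      exact h1
    have hW0' : 0 ≤ gl W := by
      rw [hgW]
      exact es_nonneg B (m + 1) _ fun i hi => (hx i hi).1
    have hrr := rr_nonneg (i := b) (j := a) (m := m)
    have hvB := vp_pos (i := b) (j := a)
    have hv4 := vp_pos (i := 4) (j := b)
    have hT0 : 0 ≤ gl U := hvB.le.trans hT1
    have hg0 : 0 ≤ gl Dp := hv4.le.trans hg1
    have hdisj := PB_disjoint b a
    have hcop1 := coprime_of_good hdisj hGp hGU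
    have hcop2 := coprime_of_good hdisj hGm hGU
    have hcop3 := coprime_of_good hdisj hGp hGW
    refine ⟨by omega, by positivity, by positivity, by positivity,
      mulL Dp U, mulL Dm U ++ negL (mulL Dp W), ?_, ?_, ?_, ?_, ?_, ?_, ?_, ?_⟩
    · rw [← PB_union h4 hba.le]
      exact hGp.mulL hGU
    · rw [← PB_union h4 hba.le]
      exact (hGm.mulL hGU).append (hGp.mulL hGW).negL
    · rw [length_mulL]
      push_cast
      exact mul_le_mul hLp hlU (by positivity) hE
    · rw [List.length_append, length_mulL]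
      unfold negL
      rw [List.length_map, length_mulL]
      push_cast
      have h1 : (Dm.length : ℝ) * U.length ≤ E * M * (c + 1) ^ m :=
        mul_le_mul hLm hlU (by positivity) ((by positivity : (0:ℝ) ≤ (Dm.length : ℝ)).trans hLm)
      have h2 : (Dp.length : ℝ) * W.length ≤ E * (c + 1) ^ (m + 1) :=
        mul_le_mul hLp hlW (by positivity) hE
      calc _ ≤ E * M * (c + 1) ^ m + E * (c + 1) ^ (m + 1) := add_le_add h1 h2
        _ = E * (c + 1) ^ m * (M + (c + 1)) := by ring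
    · intro n
      obtain ⟨hv1, hv2⟩ := hval n
      have h1 := hU1 n
      have h2 := hU2 n
      have h3 := hW0 n
      have h5 := one_nonneg B n
      have h6 := one_nonneg (PB 4 b) n
      rw [vl_append, vl_negL, vl_mulL _ _ _ hcop1, vl_mulL _ _ _ hcop2, vl_mulL _ _ _ hcop3,
        ← PB_union h4 hba.le, one_union hdisj]
      constructor
      · have h7 : vl Dm n * vl U n ≤ one (PB 4 b) n * vl U n :=
          mul_le_mul_of_nonneg_right hv1 (h5.trans h1)
        have h8 : one (PB 4 b) n * vl W n ≤ vl Dp n * vl W n :=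
          mul_le_mul_of_nonneg_right hv2 h3
        have h9 : one (PB 4 b) n * vl U n ≤ one (PB 4 b) n * (one B n + vl W n) :=
          mul_le_mul_of_nonneg_left h2 h6
        have h10 : one (PB 4 b) n * (one B n + vl W n) =
          one (PB 4 b) n * one B n + one (PB 4 b) n * vl W n := by ring
        linarith
      · exact mul_le_mul hv2 h1 h5 (h6.trans hv2)
    · rw [vp_mul h4 hba.le, gl_mulL]
      exact mul_le_mul hg1 hT1 hvB.le hg0
    · rw [vp_mul h4 hba.le, gl_mulL]
      have h1 : gl U ≤ vp b a * (1 + rr b a m) := by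
        have : vp b a * (1 + rr b a m) = vp b a + vp b a * rr b a m := by ring
        linarith
      calc gl Dp * gl U ≤ (vp 4 b * P) * (vp b a * (1 + rr b a m)) :=
            mul_le_mul hg2 h1 hT0 (mul_nonneg hv4.le hP)
        _ = vp 4 b * vp b a * (P * (1 + rr b a m)) := by ring
    · rw [gl_append, gl_negL, gl_mulL, gl_mulL, gl_mulL]
      have h1 : gl Dp * (1 - R) * gl U ≤ gl Dm * gl U := mul_le_mul_of_nonneg_right hg3 hT0
      have h2 : gl W ≤ gl U * rr b a m :=
        hW1.trans (mul_le_mul_of_nonneg_right hT1 hrr)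
      have h3 : gl Dp * gl W ≤ gl Dp * (gl U * rr b a m) := mul_le_mul_of_nonneg_left h2 hg0
      have h5 : gl Dp * gl U * (1 - (R + rr b a m)) =
        gl Dp * (1 - R) * gl U - gl Dp * (gl U * rr b a m) := by ring
      rw [h5]
      linarith

private theorem cnt_eq (N H p a : ℕ) :
    ((cnt N H p a).card : ℝ) = ∑ m ∈ SS N H p, one (PB 4 a) m := by
  classical
  have h1 : cnt N H p a = (SS N H p).filter (fun m => ∀ q ∈ PB 4 a, ¬ q ∣ m) := by
    unfold cnt SS
    ext m
    simp only [Finset.mem_filter]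
    tauto
  rw [h1, Finset.card_filter]
  push_cast
  apply Finset.sum_congr rfl
  intro m _
  unfold one
  congr

theorem bhUp (hD : Disc) : BHUp := by
  intro a P R E M hch N H p hp hpc hpa
  obtain ⟨h4, hP, hE, hR, Dp, Dm, hGp, hGm, hLp, hLm, hval, hg1, hg2, hg3⟩ := chain hch
  rw [cnt_eq]
  have h1 : ∑ m ∈ SS N H p, one (PB 4 a) m ≤ ∑ m ∈ SS N H p, vl Dp m :=
    Finset.sum_le_sum fun m _ => (hval m).2
  have h2 := (abs_le.mp (count_all hD (N := N) (H := H) hp hpc hpa Dp hGp)).2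
  have h3 : 192 / 1001 * ((H : ℝ) / p) * gl Dp ≤ 192 / 1001 * ((H : ℝ) / p) * (vp 4 a * P) :=
    mul_le_mul_of_nonneg_left hg2 (by positivity)
  calc _ ≤ 192 / 1001 * ((H : ℝ) / p) * (vp 4 a * P) + 8 * E := by linarith
    _ = 192 / 1001 * ((H : ℝ) / p) * vp 4 a * P + 8 * E := by ring

theorem bhLow (hD : Disc) : BHLow := by
  intro a P R E M hch hR1 N H
  obtain ⟨h4, hP, hE, hR, Dp, Dm, hGp, hGm, hLp, hLm, hval, hg1, hg2, hg3⟩ := chain hch
  rw [cnt_eq]
  have h1 : ∑ m ∈ SS N H 1, vl Dm m ≤ ∑ m ∈ SS N H 1, one (PB 4 a) m :=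
    Finset.sum_le_sum fun m _ => (hval m).1
  have h2 := (abs_le.mp (count_all hD (N := N) (H := H) (p := 1) one_pos (by norm_num) (by
    intro q hq hd
    exact (PB_prime hq).ne_one (Nat.dvd_one.mp hd)) Dm hGm)).1
  have h3 : vp 4 a * (1 - R) ≤ gl Dm := (mul_le_mul_of_nonneg_right hg1 (by linarith)).trans hg3
  have h5 : 192 / 1001 * (H : ℝ) * (vp 4 a * (1 - R)) ≤ 192 / 1001 * (H : ℝ) * gl Dm :=
    mul_le_mul_of_nonneg_left h3 (by positivity)
  have h6 : 192 / 1001 * ((H : ℝ) / ((1 : ℕ) : ℝ)) * gl Dm = 192 / 1001 * (H : ℝ) * gl Dm := by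
    push_cast; ring
  rw [h6] at h2
  calc _ = 192 / 1001 * (H : ℝ) * (vp 4 a * (1 - R)) - 8 * (E * M) := by ring
    _ ≤ _ := by linarith

end Pool.Agent.Helper1.SQ
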